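import Mathlib
import Pool.Agent.Lib.MP_1358e2_al.Group

/-!
# A residually finite one-relator group that is not residually solvable

The group is `⟨a, s, t | t⁻¹ a t = [a, s⁻¹ a s]⟩`; it is residually finite, and the normal closure
of `a` is a non-trivial perfect group with free quotient of rank two.
-/

set_option autoImplicit false

universe v

namespace Pool.Agent.Results.MP_1358e2_al.FiniteNotSolvable

open Pool.Agent.MP1358e2

/-- The normal closure of `a`. -/
def NN : Subgroup G := Subgroup.normalClosure {gA}

instance NN_normal : NN.Normal := Subgroup.normalClosure_normal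

theorem gA_mem_NN : gA ∈ NN := Subgroup.subset_normalClosure rfl

theorem NN_perfect : ⁅NN, NN⁆ = NN := by
  have hN : NN.Normal := NN_normal
  apply le_antisymm (Subgroup.commutator_le_left NN NN)
  have hn : (⁅NN, NN⁆ : Subgroup G).Normal := inferInstance
  refine Subgroup.normalClosure_le_normal ?_
  rw [Set.singleton_subset_iff]
  have h1 : (st false)⁻¹ * gA * st false ∈ NN := by
    have := hN.conj_mem gA gA_mem_NN (st false)⁻¹
    rwa [inv_inv] at this
  have h2 : (st true)⁻¹ * gA * st true ∈ ⁅NN, NN⁆ := by
    rw [relation]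
    exact Subgroup.commutator_mem_commutator gA_mem_NN h1
  have h3 := hn.conj_mem _ h2 (st true)
  have h4 : st true * ((st true)⁻¹ * gA * st true) * (st true)⁻¹ = gA := by group
  rw [h4] at h3
  exact h3

/-- The homomorphism to the free group of rank two killing `a`. -/
def toFree : G →* FreeGroup (Fin 2) :=
  PresentedGroup.toGroup (f := ![1, FreeGroup.of 0, FreeGroup.of 1]) (by
    intro r hr
    rw [Set.mem_singleton_iff] at hr
    subst hr
    simp [rel, relL, relR])

theorem toFree_of (i : Fin 3) :
    toFree (PresentedGroup.of i) =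
      (![1, FreeGroup.of 0, FreeGroup.of 1] : Fin 3 → FreeGroup (Fin 2)) i := by
  rw [toFree, PresentedGroup.toGroup.of]

theorem toFree_gA : toFree gA = 1 := by
  rw [gA, toFree_of]
  rfl

/-- The inverse homomorphism. -/
def ofFree : FreeGroup (Fin 2) →* G ⧸ NN :=
  FreeGroup.lift ![QuotientGroup.mk' NN (st false), QuotientGroup.mk' NN (st true)]

theorem NN_le_ker : NN ≤ toFree.ker := by
  refine Subgroup.normalClosure_le_normal ?_
  rw [Set.singleton_subset_iff]
  exact toFree_gA

/-- The quotient by the normal closure of `a` is free of rank two. -/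
def quotEquiv : G ⧸ NN ≃* FreeGroup (Fin 2) :=
  MonoidHom.toMulEquiv (QuotientGroup.lift NN toFree NN_le_ker) ofFree
    (by
      apply QuotientGroup.monoidHom_ext
      apply PresentedGroup.ext
      intro i
      show ofFree (toFree (PresentedGroup.of i)) = QuotientGroup.mk' NN (PresentedGroup.of i)
      rw [toFree_of]
      fin_cases i
      · show ofFree 1 = QuotientGroup.mk' NN gA
        rw [map_one]
        exact ((QuotientGroup.eq_one_iff gA).2 gA_mem_NN).symm
      · show ofFree (FreeGroup.of 0) = QuotientGroup.mk' NN (st false)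
        rw [ofFree, FreeGroup.lift_apply_of]
        rfl
      · show ofFree (FreeGroup.of 1) = QuotientGroup.mk' NN (st true)
        rw [ofFree, FreeGroup.lift_apply_of]
        rfl)
    (by
      apply FreeGroup.ext_hom
      intro i
      fin_cases i
      · show QuotientGroup.lift NN toFree NN_le_ker (ofFree (FreeGroup.of 0)) = FreeGroup.of 0
        rw [ofFree, FreeGroup.lift_apply_of]
        show toFree (st false) = FreeGroup.of 0
        exact toFree_of 1
      · show QuotientGroup.lift NN toFree NN_le_ker (ofFree (FreeGroup.of 1)) = FreeGroup.of 1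
        rw [ofFree, FreeGroup.lift_apply_of]
        show toFree (st true) = FreeGroup.of 1
        exact toFree_of 2)

theorem perfect_le_ker {Q : Type v} [Group Q] [Group.IsSolvable Q] (f : G →* Q) : NN ≤ f.ker := by
  obtain ⟨n, hn⟩ := (Group.isSolvable_def Q).1 inferInstance
  refine Subgroup.normalClosure_le_normal ?_
  rw [Set.singleton_subset_iff]
  have h1 : f gA ∈ derivedSeries Q n := by
    have h2 := Subgroup.mem_map_of_mem f (gA_mem n)
    exact map_derivedSeries_le_derivedSeries f n h2
  rw [hn] at h1
  exact h1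

/-- **A residually finite one-relator group that is not residually solvable.** -/
theorem result :
    ∃ r : FreeGroup (Fin 3),
      r = (FreeGroup.of 2)⁻¹ * FreeGroup.of 0 * FreeGroup.of 2 *
        (FreeGroup.of 0 * ((FreeGroup.of 1)⁻¹ * FreeGroup.of 0 * FreeGroup.of 1) *
          (FreeGroup.of 0)⁻¹ * ((FreeGroup.of 1)⁻¹ * FreeGroup.of 0 * FreeGroup.of 1)⁻¹)⁻¹ ∧
      (∀ g : PresentedGroup ({r} : Set (FreeGroup (Fin 3))), g ≠ 1 →
        ∃ (Q : Type) (_ : Group Q) (_ : Finite Q)
          (f : PresentedGroup ({r} : Set (FreeGroup (Fin 3))) →* Q),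
          Function.Surjective f ∧ f g ≠ 1) ∧
      ∃ (N : Subgroup (PresentedGroup ({r} : Set (FreeGroup (Fin 3))))) (_ : N.Normal),
        N = Subgroup.normalClosure {PresentedGroup.of 0} ∧ N ≠ ⊥ ∧ ⁅N, N⁆ = N ∧
        Nonempty (PresentedGroup ({r} : Set (FreeGroup (Fin 3))) ⧸ N ≃* FreeGroup (Fin 2)) ∧
        (∀ k : ℕ, N ≤ derivedSeries (PresentedGroup ({r} : Set (FreeGroup (Fin 3)))) k) ∧
        ∀ (Q : Type v) [Group Q] [Group.IsSolvable Q]
          (f : PresentedGroup ({r} : Set (FreeGroup (Fin 3))) →* Q), N ≤ f.ker := by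
  refine ⟨rel, ?_, ?_, NN, NN_normal, rfl, ?_, NN_perfect, ⟨quotEquiv⟩, ?_, ?_⟩
  · rfl
  · intro g hg
    obtain ⟨N, hN, hNf, hgN⟩ := residually_finite g hg
    refine ⟨G ⧸ N, inferInstance, inferInstance, QuotientGroup.mk' N,
      QuotientGroup.mk'_surjective N, ?_⟩
    intro h
    exact hgN ((QuotientGroup.eq_one_iff g).1 h)
  · intro h
    have h1 : gA ∈ (⊥ : Subgroup G) := by
      rw [← h]
      exact gA_mem_NN
    exact gA_ne_one (Subgroup.mem_bot.1 h1)
  · intro k
    refine Subgroup.normalClosure_le_normal ?_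
    rw [Set.singleton_subset_iff]
    exact gA_mem k
  · intro Q _ _ f
    exact perfect_le_ker f

end Pool.Agent.Results.MP_1358e2_al.FiniteNotSolvable
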